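import Pool.Agent.Helper13.FR.Stmts
import Pool.Agent.Helper58.MD.AUT

set_option autoImplicit false

/-! Module FIV of project FR (MP_7a8f48_an): Fourier inversion for periodic functions. -/

open Finset Filter Pool.Agent.Helper16.MD

namespace Pool.Agent.Helper13.FR

theorem st_FIV : ST_FIV := by
  intro Λ G hΛ hG x
  exact (aut_inv Λ G hΛ hG x).symm

end Pool.Agent.Helper13.FR
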